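import Mathlib
import Pool.Agent.K1H33.HY.Main

/-!
# The Havet-Yu conjecture for `p ≥ Δ / 2` and graphs without cliques of nearly maximum size

Proof.  A vertex is dense if its neighbourhood spans almost `D ^ 2 / 2` edges.  The dense vertices
lie in disjoint blocks `W` of about `D` vertices, each of which has few neighbours outside its
block.  A maximal matching of nonadjacent vertices inside the blocks is contracted; because a
clique has at most `(1 - ε) D` vertices, a block has at most `(1 - ε / 2 + o(1)) D` classes, and the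
contracted graph `H` has maximum degree at most `D` and *all* its neighbourhoods are sparse: at
most `(1 - ε ^ 2 / 2 ^ 22) D ^ 2` ordered pairs of adjacent neighbours (`Spars.AP_M`).  So `H` can
be distributed at random into types which have economical colourings, by the argument of the
starting modules `TH104.LS` for graphs with sparse neighbourhoods; here the types of the vertices
of `G` are tied in pairs, and the local lemma also keeps the numbers of neighbours in `G` of each
type under control (`Typ2.typing2`).  The types are pulled back to `G`, and the labels are placed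
by the windows of the starting module `TH104.HY.C`.
-/

set_option autoImplicit false

namespace Pool.Agent.Results.MP_b8729f_co.CliqueRatio

/-- `TotalLabeling G p l`: the graph `G` has a `(p,1)`-total labeling of span `l`, that is, labels
`0, …, l` for the vertices (`fV`) and the edges (`fE`) such that adjacent vertices get different
labels, edges sharing an endpoint get different labels, and the labels of a vertex and of an
incident edge differ by at least `p`. -/
def TotalLabeling {V : Type} (G : SimpleGraph V) (p l : ℕ) : Prop :=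
  ∃ (fV : V → ℕ) (fE : Sym2 V → ℕ),
    (∀ v, fV v ≤ l) ∧ (∀ e ∈ G.edgeSet, fE e ≤ l) ∧
    (∀ u v, G.Adj u v → fV u ≠ fV v) ∧
    (∀ u v w, G.Adj u v → G.Adj u w → v ≠ w → fE s(u, v) ≠ fE s(u, w)) ∧
    (∀ u v, G.Adj u v → (p : ℤ) ≤ |(fV u : ℤ) - (fE s(u, v) : ℤ)|)

theorem ratio (V : Type) [Fintype V] (G : SimpleGraph V) (D p : ℕ) (ε : ℝ) (hε0 : 0 < ε)
    (hε1 : ε ≤ 1) (hDε : (2 ^ 42 / ε ^ 2) ^ 52 ≤ (D : ℝ))
    (hD : ∀ v, (G.neighborSet v).ncard ≤ D)
    (hω : ∀ S : Finset V, G.IsClique S → (S.card : ℝ) ≤ (1 - ε) * D)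
    (hp : (1 / 2 - ε ^ 2 / 2 ^ 44) * (D : ℝ) ≤ p) :
    TotalLabeling G p (D + 2 * p - 1) := by
  classical
  refine Pool.Agent.K1H33.HY.clique_main G D p ε hε0 hε1 hDε ?_ ?_ hp
  · intro v
    have := hD v
    rwa [Set.ncard_eq_toFinset_card', ← SimpleGraph.neighborFinset_def,
      SimpleGraph.card_neighborFinset_eq_degree] at this
  · intro S hS
    apply hω S
    intro x hx y hy hxy
    exact hS x (by exact_mod_cast hx) y (by exact_mod_cast hy) hxy

/-- **The Havet-Yu conjecture for `p` at least half the maximum degree and clique number bounded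
away from the maximum degree.**

(1) Let `0 < ε ≤ 1`, let `D ≥ (2 ^ 42 / ε ^ 2) ^ 52` and `p ≥ (1 / 2 - ε ^ 2 / 2 ^ 44) D`.  Every
finite simple graph with all degrees at most `D` and all cliques of size at most `(1 - ε) D` has a
`(p,1)`-total labeling of span `D + 2 p - 1`.

(2) Let `2 p ≥ D`.  Every finite simple graph with all degrees at most `D` and all cliques of size
at most `D - 2 ^ 21 D ^ (103 / 104)` has a `(p,1)`-total labeling of span `D + 2 p - 1`. -/
theorem result :
    (∀ (V : Type) [Fintype V] (G : SimpleGraph V) (D p : ℕ) (ε : ℝ), 0 < ε → ε ≤ 1 →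
      (2 ^ 42 / ε ^ 2) ^ 52 ≤ (D : ℝ) → (∀ v, (G.neighborSet v).ncard ≤ D) →
      (∀ S : Finset V, G.IsClique S → (S.card : ℝ) ≤ (1 - ε) * D) →
      (1 / 2 - ε ^ 2 / 2 ^ 44) * (D : ℝ) ≤ p →
      TotalLabeling G p (D + 2 * p - 1)) ∧
    (∀ (V : Type) [Fintype V] (G : SimpleGraph V) (D p : ℕ),
      (∀ v, (G.neighborSet v).ncard ≤ D) →
      (∀ S : Finset V, G.IsClique S → (S.card : ℝ) ≤ D - 2 ^ 21 * (D : ℝ) ^ (103 / 104 : ℝ)) →
      D ≤ 2 * p → TotalLabeling G p (D + 2 * p - 1)) := by
  refine ⟨fun V _ G D p ε h1 h2 h3 h4 h5 h6 => ratio V G D p ε h1 h2 h3 h4 h5 h6, ?_⟩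
  intro V _ G D p hD hω hp
  rcases Nat.eq_zero_or_pos D with h0 | hDpos
  · -- no vertices
    have hE : IsEmpty V := by
      by_contra hne
      rw [not_isEmpty_iff] at hne
      obtain ⟨v⟩ := hne
      have h1 := hω {v} (by simp)
      rw [h0] at h1
      norm_num at h1
    exact ⟨fun _ => 0, fun _ => 0, fun v => (hE.false v).elim,
      fun e => by
        induction e with
        | h u v => exact (hE.false u).elim,
      fun u => (hE.false u).elim, fun u => (hE.false u).elim, fun u => (hE.false u).elim⟩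
  · have hDr : (0 : ℝ) < D := by exact_mod_cast hDpos
    obtain ⟨ε, hε⟩ : ∃ ε : ℝ, ε = 2 ^ 21 * (D : ℝ) ^ (-(1 / 104) : ℝ) := ⟨_, rfl⟩
    have hε0 : 0 < ε := by rw [hε]; positivity
    have hεD : ε * D = 2 ^ 21 * (D : ℝ) ^ (103 / 104 : ℝ) := by
      have h2 : (D : ℝ) ^ (-(1 / 104) : ℝ) * (D : ℝ) = (D : ℝ) ^ (103 / 104 : ℝ) := by
        nth_rewrite 2 [← Real.rpow_one (D : ℝ)]
        rw [← Real.rpow_add hDr]
        norm_num
      rw [hε, mul_assoc, h2]
    have hε1 : ε ≤ 1 := by
      have h1 := hω ∅ (by simp)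
      rw [← hεD] at h1
      simp only [Finset.card_empty, Nat.cast_zero] at h1
      have h2 : ε * D ≤ 1 * D := by linarith
      exact le_of_mul_le_mul_right h2 hDr
    have hpow : (2 ^ 42 / ε ^ 2 : ℝ) ^ 52 = D := by
      have h1 : ε ^ 2 = 2 ^ 42 * (D : ℝ) ^ (-(1 / 52) : ℝ) := by
        rw [hε, mul_pow, ← Real.rpow_natCast ((D : ℝ) ^ (-(1 / 104) : ℝ)), ← Real.rpow_mul hDr.le]
        norm_num
      have h2 : (2 ^ 42 / ε ^ 2 : ℝ) = (D : ℝ) ^ (1 / 52 : ℝ) := by
        rw [h1, Real.rpow_neg hDr.le]
        field_simp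
      rw [h2, ← Real.rpow_natCast, ← Real.rpow_mul hDr.le]
      norm_num
    refine ratio V G D p ε hε0 hε1 hpow.le hD ?_ ?_
    · intro S hS
      have := hω S hS
      rw [← hεD] at this
      linarith
    · have h1 : (D : ℝ) ≤ 2 * p := by exact_mod_cast hp
      have h2 : 0 ≤ ε ^ 2 / 2 ^ 44 * D := by positivity
      linarith

end Pool.Agent.Results.MP_b8729f_co.CliqueRatio
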