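import Mathlib
import Pool.Agent.K1H34.HYC.Final

/-!
# The Havet-Yu conjecture on (p,1)-total labelings up to an error O(p)
-/

set_option autoImplicit false

namespace Pool.Agent.Results.MP_b8729f_co.LinearError

/-- `TotalLabeling G p l`: the graph `G` has a `(p,1)`-total labeling of span `l`, that is, labels
`0, …, l` for the vertices (`fV`) and the edges (`fE`) such that adjacent vertices get different
labels, edges sharing an endpoint get different labels, and the labels of a vertex and of an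
incident edge differ by at least `p`. -/
def TotalLabeling {V : Type} (G : SimpleGraph V) (p l : ℕ) : Prop :=
  ∃ (fV : V → ℕ) (fE : Sym2 V → ℕ),
    (∀ v, fV v ≤ l) ∧ (∀ e ∈ G.edgeSet, fE e ≤ l) ∧
    (∀ u v, G.Adj u v → fV u ≠ fV v) ∧
    (∀ u v w, G.Adj u v → G.Adj u w → v ≠ w → fE s(u, v) ≠ fE s(u, w)) ∧
    (∀ u v, G.Adj u v → (p : ℤ) ≤ |(fV u : ℤ) - (fE s(u, v) : ℤ)|)

/-- `CircularLabeling G p N`: a circular `(p,1)`-total labeling of `G` with the `N` labels
`0, …, N - 1` placed around a circle: as above, but the distance of the labels of a vertex and of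
an incident edge, measured around the circle, is at least `p`
(so `p ≤ |fV u - fE uv| ≤ N - p`). -/
def CircularLabeling {V : Type} (G : SimpleGraph V) (p N : ℕ) : Prop :=
  ∃ (fV : V → ℕ) (fE : Sym2 V → ℕ),
    (∀ v, fV v < N) ∧ (∀ e ∈ G.edgeSet, fE e < N) ∧
    (∀ u v, G.Adj u v → fV u ≠ fV v) ∧
    (∀ u v w, G.Adj u v → G.Adj u w → v ≠ w → fE s(u, v) ≠ fE s(u, w)) ∧
    (∀ u v, G.Adj u v → (p : ℤ) ≤ |(fV u : ℤ) - (fE s(u, v) : ℤ)| ∧
      |(fV u : ℤ) - (fE s(u, v) : ℤ)| ≤ (N : ℤ) - p)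

theorem result : ∃ C : ℕ, ∀ (V : Type) [Fintype V] (G : SimpleGraph V) [DecidableRel G.Adj]
    (p : ℕ), 1 ≤ p →
    CircularLabeling G p (G.maxDegree + C * p) ∧ TotalLabeling G p (G.maxDegree + C * p - 1) := by
  obtain ⟨C, hC⟩ := Pool.Agent.K1H34.HYC.final
  refine ⟨C, ?_⟩
  intro V _ G _ p hp
  obtain ⟨fV, fE, h1, h2, h3, h4, h5⟩ := hC V G p G.maxDegree hp (by
    intro v
    have h := G.degree_le_maxDegree v
    have : Pool.Agent.K1H34.HYC.dg G Finset.univ v = G.degree v := by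
      unfold Pool.Agent.K1H34.HYC.dg
      rw [← SimpleGraph.card_neighborFinset_eq_degree]
      congr 1
      ext y
      simp
    omega)
  exact ⟨⟨fV, fE, h1, h2, h3, h4, h5⟩, fV, fE, fun v => Nat.le_sub_one_of_lt (h1 v),
    fun e he => Nat.le_sub_one_of_lt (h2 e he), h3, h4, fun u v huv => (h5 u v huv).1⟩

end Pool.Agent.Results.MP_b8729f_co.LinearError
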