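import Mathlib
import Pool.Agent.H238R2.HY.Main
import Pool.Agent.K1H87.KF.Num

/-!
# The Havet-Yu conjecture on (p,1)-total labelings up to an error O(p + log log D)

Every finite graph of maximum degree `D` has, for every `p ≥ 1`, a circular `(p,1)`-total labeling
with `N ≤ D + 250 p + 7710 + 966 log log (D + 3)` labels, and so a `(p,1)`-total labeling of span
`N - 1`.

Proof.  As for the error `O(p + log D)` one starts with a proper edge colouring with `D + 1`
colours, numbers blocks of consecutive colours in binary and flips, for one digit after the other,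
random Kempe chains of the pairs of colours whose block numbers differ in this digit; then only few
edges at a vertex are in conflict with the vertex labels.  New are two ways to cut the Kempe chains.

* For most digits the chains are cut only at edges which are far away in the graph from each other
  and which do not meet the edges cut before.  Balls contain few ends of cut edges, so every long
  path still has edges that can be cut, and all these digits together remove only a matching.  The
  price is that the error of the number of the edges in conflict is `O((log D)^2)`.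
* For the last `O(log log D)` digits the chains are cut only at edges that are still in danger of
  a conflict (hot edges).  A vertex is on few hot edges, so the local lemma, for the events that at
  a vertex too many edges stay in conflict, needs only pieces with few hot edges, however long the
  pieces are.  The graph of consecutive hot edges on the chains has maximum degree two; a random
  independent set of hot edges cuts it into pieces with few hot edges, and every digit removes only
  a matching.  The error is now `O(log log D)`.
-/

set_option autoImplicit false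

namespace Pool.Agent.Results.MP_b8729f_co.LogLogError

open Pool.Agent.K1H87.KF

/-- `TotalLabeling G p l`: the graph `G` has a `(p,1)`-total labeling of span `l`, that is, labels
`0, …, l` for the vertices (`fV`) and the edges (`fE`) such that adjacent vertices get different
labels, edges sharing an endpoint get different labels, and the labels of a vertex and of an
incident edge differ by at least `p`. -/
def TotalLabeling {V : Type} (G : SimpleGraph V) (p l : ℕ) : Prop :=
  ∃ (fV : V → ℕ) (fE : Sym2 V → ℕ),
    (∀ v, fV v ≤ l) ∧ (∀ e ∈ G.edgeSet, fE e ≤ l) ∧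
    (∀ u v, G.Adj u v → fV u ≠ fV v) ∧
    (∀ u v w, G.Adj u v → G.Adj u w → v ≠ w → fE s(u, v) ≠ fE s(u, w)) ∧
    (∀ u v, G.Adj u v → (p : ℤ) ≤ |(fV u : ℤ) - (fE s(u, v) : ℤ)|)

/-- `CircularLabeling G p N`: a circular `(p,1)`-total labeling of `G` with the `N` labels
`0, …, N - 1` placed around a circle: as above, but the distance of the labels of a vertex and of
an incident edge, measured around the circle, is at least `p`
(so `p ≤ |fV u - fE uv| ≤ N - p`). -/
def CircularLabeling {V : Type} (G : SimpleGraph V) (p N : ℕ) : Prop :=
  ∃ (fV : V → ℕ) (fE : Sym2 V → ℕ),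
    (∀ v, fV v < N) ∧ (∀ e ∈ G.edgeSet, fE e < N) ∧
    (∀ u v, G.Adj u v → fV u ≠ fV v) ∧
    (∀ u v w, G.Adj u v → G.Adj u w → v ≠ w → fE s(u, v) ≠ fE s(u, w)) ∧
    (∀ u v, G.Adj u v → (p : ℤ) ≤ |(fV u : ℤ) - (fE s(u, v) : ℤ)| ∧
      |(fV u : ℤ) - (fE s(u, v) : ℤ)| ≤ (N : ℤ) - p)

theorem circ_lin {V : Type} {G : SimpleGraph V} {p N : ℕ} (h : CircularLabeling G p N) :
    TotalLabeling G p (N - 1) := by
  obtain ⟨fV, fE, h1, h2, h3, h4, h5⟩ := h
  exact ⟨fV, fE, fun v => Nat.le_sub_one_of_lt (h1 v), fun e he => Nat.le_sub_one_of_lt (h2 e he),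
    h3, h4, fun u v huv => (h5 u v huv).1⟩

theorem circ_main {V : Type} [Fintype V] (G : SimpleGraph V) [DecidableRel G.Adj] (p : ℕ)
    (hp : 1 ≤ p) : ∃ N : ℕ,
      (N : ℝ) ≤ G.maxDegree + 250 * p + 7710 + 966 * Real.log (Real.log (G.maxDegree + 3)) ∧
      CircularLabeling G p N := by
  have hD0 : (0 : ℝ) ≤ G.maxDegree := Nat.cast_nonneg _
  have hl3 : 1 ≤ Real.log ((G.maxDegree : ℝ) + 3) := by
    rw [Real.le_log_iff_exp_le (by linarith)]
    have := Real.exp_one_lt_d9
    linarith
  have hlog : 0 ≤ Real.log (Real.log ((G.maxDegree : ℝ) + 3)) := Real.log_nonneg hl3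
  have hpr : (1 : ℝ) ≤ p := by exact_mod_cast hp
  rcases Nat.lt_or_ge (G.maxDegree + 1) 64 with h64 | h64
  · refine ⟨2 * G.maxDegree + 2 * p, ?_, Pool.Agent.H238R2.HY.trivial_bound G p hp⟩
    have h1 : (G.maxDegree : ℝ) ≤ 62 := by exact_mod_cast (by omega : G.maxDegree ≤ 62)
    push_cast
    linarith
  · rcases Nat.lt_or_ge (G.maxDegree + 1) (2 * p - 1) with hlt | hge
    · refine ⟨2 * G.maxDegree + 2 * p, ?_, Pool.Agent.H238R2.HY.trivial_bound G p hp⟩
      have h1 : (G.maxDegree : ℝ) ≤ 2 * p := by
        exact_mod_cast (by omega : G.maxDegree ≤ 2 * p)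
      push_cast
      linarith
    · set K := G.maxDegree + 1 with hK
      set d := 2 * p - 1 with hd
      have hd1 : 1 ≤ d := by omega
      set m := Nat.log 2 (K / d) with hm
      have hKd : K / d ≠ 0 := by
        have : 1 ≤ K / d := by
          rw [Nat.le_div_iff_mul_le (by omega)]; omega
        omega
      have hm1 : 2 ^ m * d ≤ K := by
        rw [← Nat.le_div_iff_mul_le (by omega)]
        exact Nat.pow_log_le_self 2 hKd
      have hm2 : K < 2 ^ (m + 1) * d := by
        rw [← Nat.div_lt_iff_lt_mul (by omega)]
        exact Nat.lt_pow_succ_log_self (by norm_num) _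
      obtain ⟨r, X, hX0, hPH, hrX⟩ := ph_main K d m h64 hd1 hm1 hm2
      obtain ⟨N, hN, hC⟩ := lab2 G p m r X hp hm1 hX0 hPH
      refine ⟨N, hN.trans ?_, hC⟩
      have hdR : ((d : ℕ) : ℝ) = 2 * p - 1 := by
        rw [hd, Nat.cast_sub (by omega)]
        push_cast
        ring
      rw [hdR] at hrX
      have hKR : ((K : ℕ) : ℝ) = G.maxDegree + 1 := by
        rw [hK]
        push_cast
        ring
      rw [hKR] at hrX
      have hl2 : Real.log (Real.log ((G.maxDegree : ℝ) + 1 + 1)) ≤
          Real.log (Real.log ((G.maxDegree : ℝ) + 3)) := by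
        apply Real.log_le_log
        · apply Real.log_pos
          linarith
        · apply Real.log_le_log
          · linarith
          · linarith
      linarith

/-- **The Havet-Yu conjecture up to an error `O(p + log log D)`.**  For every finite graph `G` of
maximum degree `D` and every `p ≥ 1` there is a natural number
`N ≤ D + 250 p + 7710 + 966 log log (D + 3)` such that `G` has a circular `(p,1)`-total labeling
with `N` labels and a `(p,1)`-total labeling of span `N - 1`. -/
theorem result :
    ∀ (V : Type) [Fintype V] (G : SimpleGraph V) [DecidableRel G.Adj] (p : ℕ), 1 ≤ p →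
      ∃ N : ℕ,
        (N : ℝ) ≤ G.maxDegree + 250 * p + 7710 + 966 * Real.log (Real.log (G.maxDegree + 3)) ∧
        CircularLabeling G p N ∧ TotalLabeling G p (N - 1) := by
  intro V _ G _ p hp
  obtain ⟨N, hN, hC⟩ := circ_main G p hp
  exact ⟨N, hN, hC, circ_lin hC⟩

end Pool.Agent.Results.MP_b8729f_co.LogLogError
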