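import Mathlib
import Pool.Agent.K1H34.HYS.Final

/-!
# The Havet-Yu conjecture on (p,1)-total labelings: the second order term for `p` above `√Δ`

For every `ε > 0` there is a `C` such that every graph `G` with maximum degree `Δ ≥ 1` and every
`p ≥ C √Δ` satisfy `λ_p^T(G) ≤ Δ + (2 + ε) p`.  The labels can be taken on a circle, where every
such graph needs at least `Δ + 2 p - 1` labels.  Quantitatively, `Δ + 2 p + C (√Δ + p^(2/3)
(log Δ)^(1/3) + p^2 / Δ)` labels on a circle suffice for all `p ≥ 1`.

Proof.  The labels are divided into blocks of a length `b` of order at least `√Δ`.  By the local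
lemma the vertices get random blocks such that every vertex has almost the same number of neighbours
in every block; a small part of the vertices is deferred, so that the remaining vertices have fewer
than `b` neighbours in their own blocks and can be labelled inside their blocks greedily; then the
deferred vertices get arbitrary labels greedily.  Every edge is distributed uniformly over all blocks
which are not near the blocks of its ends.  This fractional assignment is rounded by linear algebra
with an error less than 4 at every vertex and block (in the manner of Beck and Fiala), and the edges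
of every block are labelled by Vizing's theorem.
-/

set_option autoImplicit false

namespace Pool.Agent.Results.MP_b8729f_co.SecondOrder

/-- `TotalLabeling G p l`: the graph `G` has a `(p,1)`-total labeling of span `l`, that is, labels
`0, …, l` for the vertices (`fV`) and the edges (`fE`) such that adjacent vertices get different
labels, edges sharing an endpoint get different labels, and the labels of a vertex and of an
incident edge differ by at least `p`. -/
def TotalLabeling {V : Type} (G : SimpleGraph V) (p l : ℕ) : Prop :=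
  ∃ (fV : V → ℕ) (fE : Sym2 V → ℕ),
    (∀ v, fV v ≤ l) ∧ (∀ e ∈ G.edgeSet, fE e ≤ l) ∧
    (∀ u v, G.Adj u v → fV u ≠ fV v) ∧
    (∀ u v w, G.Adj u v → G.Adj u w → v ≠ w → fE s(u, v) ≠ fE s(u, w)) ∧
    (∀ u v, G.Adj u v → (p : ℤ) ≤ |(fV u : ℤ) - (fE s(u, v) : ℤ)|)

/-- `CircularLabeling G p N`: a circular `(p,1)`-total labeling of `G` with the `N` labels
`0, …, N - 1` placed around a circle: as above, but the distance of the labels of a vertex and of
an incident edge, measured around the circle, is at least `p`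
(so `p ≤ |fV u - fE uv| ≤ N - p`). -/
def CircularLabeling {V : Type} (G : SimpleGraph V) (p N : ℕ) : Prop :=
  ∃ (fV : V → ℕ) (fE : Sym2 V → ℕ),
    (∀ v, fV v < N) ∧ (∀ e ∈ G.edgeSet, fE e < N) ∧
    (∀ u v, G.Adj u v → fV u ≠ fV v) ∧
    (∀ u v w, G.Adj u v → G.Adj u w → v ≠ w → fE s(u, v) ≠ fE s(u, w)) ∧
    (∀ u v, G.Adj u v → (p : ℤ) ≤ |(fV u : ℤ) - (fE s(u, v) : ℤ)| ∧
      |(fV u : ℤ) - (fE s(u, v) : ℤ)| ≤ (N : ℤ) - p)

theorem circ_lin {V : Type} {G : SimpleGraph V} {p N : ℕ} (h : CircularLabeling G p N) :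
    TotalLabeling G p (N - 1) := by
  obtain ⟨fV, fE, h1, h2, h3, h4, h5⟩ := h
  exact ⟨fV, fE, fun v => Nat.le_sub_one_of_lt (h1 v), fun e he => Nat.le_sub_one_of_lt (h2 e he),
    h3, h4, fun u v huv => (h5 u v huv).1⟩

/-- (1) One constant `C` such that, for all graphs `G` with maximum degree `Δ ≥ 1` and all `p ≥ 1`,
`N ≤ Δ + 2 p + C (√Δ + p^(2/3) (log Δ)^(1/3) + p^2 / Δ)` labels suffice for a circular
`(p,1)`-total labeling (so there is a `(p,1)`-total labeling with the labels `0, …, N - 1`).
(2) For every `ε > 0` there is a `C` such that, for all graphs `G` with `Δ ≥ 1` and all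
`p ≥ C √Δ`, `N ≤ Δ + (2 + ε) p` labels suffice. -/
theorem result :
    (∃ C : ℝ, ∀ (V : Type) [Fintype V] (G : SimpleGraph V) [DecidableRel G.Adj] (p : ℕ),
      1 ≤ p → 1 ≤ G.maxDegree →
      ∃ N : ℕ, (N : ℝ) ≤ G.maxDegree + 2 * p + C * (Real.sqrt G.maxDegree +
          (p : ℝ) ^ (2 / 3 : ℝ) * Real.log G.maxDegree ^ (1 / 3 : ℝ) +
          (p : ℝ) ^ 2 / G.maxDegree) ∧
        CircularLabeling G p N ∧ TotalLabeling G p (N - 1)) ∧
    (∀ ε : ℝ, 0 < ε → ∃ C : ℝ, ∀ (V : Type) [Fintype V] (G : SimpleGraph V)
      [DecidableRel G.Adj] (p : ℕ), 1 ≤ p → 1 ≤ G.maxDegree → C * Real.sqrt G.maxDegree ≤ p →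
      ∃ N : ℕ, (N : ℝ) ≤ G.maxDegree + (2 + ε) * p ∧
        CircularLabeling G p N ∧ TotalLabeling G p (N - 1)) := by
  constructor
  · obtain ⟨C, -, hC⟩ := Pool.Agent.K1H34.HYS.final
    refine ⟨C, ?_⟩
    intro V _ G _ p hp hD
    obtain ⟨N, hN, hlab⟩ := hC V G p G.maxDegree hp hD (fun v => by
      have h := G.degree_le_maxDegree v
      have h2 : Pool.Agent.K1H34.HYS.dg G v = G.degree v := by
        unfold Pool.Agent.K1H34.HYS.dg
        rw [← SimpleGraph.card_neighborFinset_eq_degree]
        congr 1
        ext u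
        simp
      omega)
    exact ⟨N, hN, hlab, circ_lin hlab⟩
  · intro ε hε
    obtain ⟨C, hC⟩ := Pool.Agent.K1H34.HYS.eps_bound Pool.Agent.K1H34.HYS.final ε hε
    refine ⟨C, ?_⟩
    intro V _ G _ p hp hD hpC
    obtain ⟨N, hN, hlab⟩ := hC V G p hp hD hpC
    exact ⟨N, hN, hlab, circ_lin hlab⟩

end Pool.Agent.Results.MP_b8729f_co.SecondOrder
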